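import Mathlib

/-!
# The Euclidean potential over the Eisenstein integers

For pairs `(x, y)` of Eisenstein integers exactly one of which is divisible by `s = 1 - ω` there is a
function `pot x y` with `pot x 0 = 0`, `pot x y = 1 - pot y x` and
`pot (x + s a y) y = ω ^ a * pot x y` (`ω ^ a` depends on `a` modulo `s` only).
-/

set_option autoImplicit false

namespace Pool.Agent.H10.EF

/-- Eisenstein integers `re + im ω`, `ω ^ 2 = -1 - ω` -/
abbrev E := QuadraticAlgebra ℤ (-1) (-1)

/-- the primitive cube root of unity -/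
def om : E := ⟨0, 1⟩

/-- `s = 1 - ω` -/
def ess : E := ⟨1, -1⟩

/-- the norm -/
def nm (x : E) : ℤ := x.re ^ 2 - x.re * x.im + x.im ^ 2

/-- divisibility by `s` -/
def Sd (x : E) : Prop := (3 : ℤ) ∣ x.re + x.im

/-- the character: `ω ^ a` for `a` modulo `s` -/
def chi (a : E) : E := om ^ (((a.re + a.im) % 3).toNat)

theorem re_mul (x y : E) : (x * y).re = x.re * y.re - x.im * y.im := by
  rw [QuadraticAlgebra.re_mul]; ring

theorem im_mul (x y : E) : (x * y).im = x.re * y.im + x.im * y.re - x.im * y.im := by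
  rw [QuadraticAlgebra.im_mul]; ring

theorem nm_nonneg (x : E) : 0 ≤ nm x := by
  unfold nm; nlinarith [sq_nonneg (x.re - x.im), sq_nonneg x.re, sq_nonneg x.im]

theorem nm_eq_zero {x : E} (h : nm x = 0) : x = 0 := by
  unfold nm at h
  have h1 : x.re = 0 := by nlinarith [sq_nonneg (x.re - x.im), sq_nonneg x.re, sq_nonneg x.im]
  have h2 : x.im = 0 := by nlinarith [sq_nonneg (x.re - x.im), sq_nonneg x.re, sq_nonneg x.im]
  ext <;> simp [h1, h2]

theorem nm_pos {x : E} (h : x ≠ 0) : 0 < nm x :=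
  lt_of_le_of_ne (nm_nonneg x) fun h' => h (nm_eq_zero h'.symm)

theorem nm_zero : nm 0 = 0 := by simp [nm]

theorem om_cube : om ^ 3 = 1 := by
  rw [pow_succ, pow_two]
  ext
  · rw [re_mul, re_mul, im_mul]; rfl
  · rw [im_mul, re_mul, im_mul]; rfl

theorem chi_mod (a b : E) (h : (3 : ℤ) ∣ (a.re + a.im) - (b.re + b.im)) : chi a = chi b := by
  unfold chi
  have h1 : (a.re + a.im) % 3 = (b.re + b.im) % 3 := by omega
  rw [h1]

theorem chi_zero : chi 0 = 1 := by
  simp [chi]

theorem chi_cases (a : E) :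
    (chi a = 1 ∧ (a.re + a.im) % 3 = 0) ∨ (chi a = om ∧ (a.re + a.im) % 3 = 1) ∨
      (chi a = om ^ 2 ∧ (a.re + a.im) % 3 = 2) := by
  have h : (a.re + a.im) % 3 = 0 ∨ (a.re + a.im) % 3 = 1 ∨ (a.re + a.im) % 3 = 2 := by omega
  rcases h with h | h | h
  · exact Or.inl ⟨by unfold chi; rw [h]; rfl, h⟩
  · exact Or.inr (Or.inl ⟨by unfold chi; rw [h]; simp, h⟩)
  · exact Or.inr (Or.inr ⟨by unfold chi; rw [h]; rfl, h⟩)

theorem chi_add (a b : E) : chi (a + b) = chi a * chi b := by
  have h3 := om_cube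
  have h4 : om ^ 4 = om := by
    calc om ^ 4 = om ^ 3 * om := by ring
      _ = om := by rw [h3, one_mul]
  have e : (a + b).re + (a + b).im = (a.re + a.im) + (b.re + b.im) := by
    rw [QuadraticAlgebra.re_add, QuadraticAlgebra.im_add]; ring
  rcases chi_cases a with ⟨ha, ha'⟩ | ⟨ha, ha'⟩ | ⟨ha, ha'⟩ <;>
  rcases chi_cases b with ⟨hb, hb'⟩ | ⟨hb, hb'⟩ | ⟨hb, hb'⟩ <;>
  rcases chi_cases (a + b) with ⟨hc, hc'⟩ | ⟨hc, hc'⟩ | ⟨hc, hc'⟩ <;>
  first
  | (exfalso; omega)
  | (rw [ha, hb, hc]; ring1)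
  | (rw [ha, hb, hc]; ring_nf; rw [h3]; done)
  | (rw [ha, hb, hc]; ring_nf; rw [h4])

/-! ### Divisibility by `s` and norms -/

theorem re_sub' (x y : E) : (x - y).re = x.re - y.re := rfl
theorem im_sub' (x y : E) : (x - y).im = x.im - y.im := rfl
theorem re_add' (x y : E) : (x + y).re = x.re + y.re := rfl
theorem im_add' (x y : E) : (x + y).im = x.im + y.im := rfl

theorem sd_iff (x : E) : Sd x ↔ (3 : ℤ) ∣ nm x := by
  have e : nm x = (x.re + x.im) ^ 2 - 3 * (x.re * x.im) := by unfold nm; ring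
  constructor
  · rintro ⟨k, hk⟩
    exact ⟨3 * k ^ 2 - x.re * x.im, by rw [e, hk]; ring⟩
  · intro h
    have h1 : (3 : ℤ) ∣ (x.re + x.im) ^ 2 := by
      have h2 : (x.re + x.im) ^ 2 = nm x + 3 * (x.re * x.im) := by rw [e]; ring
      rw [h2]
      exact dvd_add h (Dvd.intro _ rfl)
    exact Int.Prime.dvd_pow' (by norm_num) h1

/-- exactly one coordinate is divisible by `s` -/
def Good (x y : E) : Prop := ¬ (Sd x ↔ Sd y)

theorem Good.symm {x y : E} (h : Good x y) : Good y x := fun h' => h h'.symm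

theorem sd_shift (x a y : E) : Sd (x + ess * a * y) ↔ Sd x := by
  unfold Sd
  have e : (x + ess * a * y).re + (x + ess * a * y).im =
      (x.re + x.im) + 3 * ((a * y).im) := by
    rw [mul_assoc, re_add', im_add', re_mul ess, im_mul ess]
    show x.re + (1 * (a * y).re - (-1) * (a * y).im) +
      (x.im + (1 * (a * y).im + (-1) * (a * y).re - (-1) * (a * y).im)) = _
    ring
  rw [e]
  constructor
  · intro h
    have h1 := dvd_sub h (Dvd.intro ((a * y).im) rfl : (3 : ℤ) ∣ 3 * (a * y).im)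
    rwa [add_sub_cancel_right] at h1
  · intro h
    exact dvd_add h (Dvd.intro _ rfl)

theorem Good.shift {x y : E} (h : Good x y) (a : E) : Good (x + ess * a * y) y := by
  unfold Good at *
  rw [sd_shift]
  exact h

theorem Good.ne {x y : E} (h : Good x y) : nm x ≠ nm y := by
  intro h'
  apply h
  rw [sd_iff, sd_iff, h']

theorem sd_zero : Sd 0 := by simp [Sd]

theorem nm_mul (x y : E) : nm (x * y) = nm x * nm y := by
  unfold nm
  rw [re_mul, im_mul]
  ring

theorem nm_ess : nm ess = 3 := by unfold nm ess; norm_num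

private theorem sq_bound {l0 l1 l2 D : ℤ} (h : l0 + l1 + l2 = 0) (h0 : |l0| ≤ D) (h1 : |l1| ≤ D)
    (h2 : |l2| ≤ D) : l0 ^ 2 + l1 ^ 2 + l2 ^ 2 ≤ 2 * D ^ 2 := by
  have e : l2 = -(l0 + l1) := by linarith
  have q0 : l0 ^ 2 ≤ D ^ 2 := sq_le_sq' (by linarith [(abs_le.1 h0).1]) (abs_le.1 h0).2
  have q1 : l1 ^ 2 ≤ D ^ 2 := sq_le_sq' (by linarith [(abs_le.1 h1).1]) (abs_le.1 h1).2
  have q2 : l2 ^ 2 ≤ D ^ 2 := sq_le_sq' (by linarith [(abs_le.1 h2).1]) (abs_le.1 h2).2
  subst e
  rcases le_or_gt 0 (l0 * l1) with hs | hs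
  · nlinarith
  · rcases le_total (l0 ^ 2) (l1 ^ 2) with hl | hl
    · have : l0 ^ 2 + l0 * l1 ≤ 0 := by
        have hab : |l0| ≤ |l1| := sq_le_sq.1 hl
        have h3 : l0 ^ 2 = |l0| * |l0| := by rw [← abs_mul, ← sq, abs_of_nonneg (sq_nonneg l0)]
        have h4 : l0 * l1 = -(|l0| * |l1|) := by rw [← abs_mul, abs_of_neg hs]; ring
        rw [h3, h4]
        nlinarith [abs_nonneg l0]
      nlinarith
    · have : l1 ^ 2 + l0 * l1 ≤ 0 := by
        have hab : |l1| ≤ |l0| := sq_le_sq.1 hl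
        have h3 : l1 ^ 2 = |l1| * |l1| := by rw [← abs_mul, ← sq, abs_of_nonneg (sq_nonneg l1)]
        have h4 : l0 * l1 = -(|l0| * |l1|) := by rw [← abs_mul, abs_of_neg hs]; ring
        rw [h3, h4]
        nlinarith [abs_nonneg l1]
      nlinarith

theorem exists_quot {x y : E} (hy : y ≠ 0) (hg : Good x y) : ∃ a, nm (x - ess * a * y) < nm y := by
  classical
  have hex : ∃ n : ℕ, ∃ a : E, (nm (x - ess * a * y)).toNat = n := ⟨_, 0, rfl⟩
  obtain ⟨a, ha⟩ := Nat.find_spec hex
  have hmin : ∀ b : E, nm (x - ess * a * y) ≤ nm (x - ess * b * y) := by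
    intro b
    by_contra hcon
    rw [not_le] at hcon
    have h1 := Nat.find_min hex (m := (nm (x - ess * b * y)).toNat) (by
      rw [← ha]
      have h2 := nm_nonneg (x - ess * b * y)
      omega)
    exact h1 ⟨b, rfl⟩
  refine ⟨a, ?_⟩
  obtain ⟨z, hz⟩ : ∃ z, z = x - ess * a * y := ⟨_, rfl⟩
  obtain ⟨t, ht⟩ : ∃ t, t = ess * y := ⟨_, rfl⟩
  have ht3 : nm t = 3 * nm y := by rw [ht, nm_mul, nm_ess]
  have key : ∀ u : E, nm z ≤ nm (z - u * t) := by
    intro u
    have h1 := hmin (a + u)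
    rw [← hz] at h1
    have h2 : x - ess * (a + u) * y = z - u * t := by rw [hz, ht]; ring
    rwa [h2] at h1
  have k1 := key ⟨1, 0⟩
  have k2 := key ⟨-1, 0⟩
  have k3 := key ⟨0, 1⟩
  have k4 := key ⟨0, -1⟩
  have k5 := key ⟨1, 1⟩
  have k6 := key ⟨-1, -1⟩
  rw [← hz]
  unfold nm at k1 k2 k3 k4 k5 k6
  rw [re_sub', im_sub', re_mul, im_mul] at k1 k2 k3 k4 k5 k6
  dsimp only at k1 k2 k3 k4 k5 k6
  have hpos := nm_pos hy
  have hle : nm z ≤ nm y := by
    have hs := sq_bound (l0 := 2 * z.re * t.re - z.re * t.im - z.im * t.re + 2 * z.im * t.im)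
      (l1 := -z.re * t.re - z.re * t.im + 2 * z.im * t.re - z.im * t.im)
      (l2 := -z.re * t.re + 2 * z.re * t.im - z.im * t.re - z.im * t.im) (D := nm t)
      (by ring)
      (by unfold nm; rw [abs_le]; constructor <;> nlinarith)
      (by unfold nm; rw [abs_le]; constructor <;> nlinarith)
      (by unfold nm; rw [abs_le]; constructor <;> nlinarith)
    have e : (2 * z.re * t.re - z.re * t.im - z.im * t.re + 2 * z.im * t.im) ^ 2 +
        (-z.re * t.re - z.re * t.im + 2 * z.im * t.re - z.im * t.im) ^ 2 +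
        (-z.re * t.re + 2 * z.re * t.im - z.im * t.re - z.im * t.im) ^ 2 = 6 * nm z * nm t := by
      unfold nm; ring
    rw [e, ht3] at hs
    nlinarith
  refine lt_of_le_of_ne hle ?_
  have h1 : Good z y := by
    have h2 := hg.shift (-a)
    have h3 : x + ess * -a * y = z := by rw [hz]; ring
    rwa [h3] at h2
  exact h1.ne

/-! ### The potential -/

/-- the Euclidean potential -/
noncomputable def pot (x y : E) : E := by
  classical
  exact if h : y ≠ 0 ∧ ∃ a, nm (x - ess * a * y) < nm y then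
      chi h.2.choose * (1 - pot y (x - ess * h.2.choose * y)) else 0
termination_by (nm y).toNat
decreasing_by
  have h1 := h.2.choose_spec
  have h2 := nm_nonneg (x - ess * h.2.choose * y)
  omega

theorem pot_zero (x : E) : pot x 0 = 0 := by
  unfold pot
  rw [dif_neg]
  rintro ⟨h, -⟩
  exact h rfl

theorem pot_eq {x y : E} (hy : y ≠ 0) (hg : Good x y) :
    ∃ a, nm (x - ess * a * y) < nm y ∧ pot x y = chi a * (1 - pot y (x - ess * a * y)) := by
  have h : y ≠ 0 ∧ ∃ a, nm (x - ess * a * y) < nm y := ⟨hy, exists_quot hy hg⟩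
  refine ⟨h.2.choose, h.2.choose_spec, ?_⟩
  conv_lhs => unfold pot
  rw [dif_pos h]

/-- the statement to be proved by induction on `nm y` -/
def St (x y : E) : Prop :=
  ∀ a, nm (x - ess * a * y) < nm y → pot x y = chi a * (1 - pot y (x - ess * a * y))

theorem chi_neg_mul (a : E) : chi (-a) * chi a = 1 := by
  rw [← chi_add, neg_add_cancel, chi_zero]

/-- consequences below a bound -/
theorem st_swap {n : ℤ} (ih : ∀ x y : E, y ≠ 0 → Good x y → nm y < n → St x y) {x y : E}
    (hg : Good x y) (hx : nm x < n) (hy : nm y < n) : pot x y = 1 - pot y x := by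
  rcases lt_or_gt_of_ne hg.ne with h | h
  · have hy0 : y ≠ 0 := by
      rintro rfl
      rw [nm_zero] at h
      exact absurd (nm_nonneg x) (not_le.2 h)
    have h1 := ih x y hy0 hg hy 0 (by simpa using h)
    simpa [chi_zero] using h1
  · have hx0 : x ≠ 0 := by
      rintro rfl
      rw [nm_zero] at h
      exact absurd (nm_nonneg y) (not_le.2 h)
    have h1 := ih y x hx0 hg.symm hx 0 (by simpa using h)
    simp only [chi_zero, mul_zero, zero_mul, sub_zero, one_mul] at h1
    rw [h1]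
    ring

theorem st_shift {n : ℤ} (ih : ∀ x y : E, y ≠ 0 → Good x y → nm y < n → St x y) {x y : E}
    (hg : Good x y) (hy : nm y < n) (b : E) : pot (x + ess * b * y) y = chi b * pot x y := by
  by_cases hy0 : y = 0
  · subst hy0
    rw [pot_zero, pot_zero, mul_zero]
  · obtain ⟨a, ha, h1⟩ := pot_eq hy0 hg
    have e : x + ess * b * y - ess * (a + b) * y = x - ess * a * y := by ring
    have h2 := ih (x + ess * b * y) y hy0 (hg.shift b) hy (a + b) (by rw [e]; exact ha)
    rw [h2, h1, e, chi_add]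
    ring

/-- two reductions of `x` modulo `s y` give the same value -/
theorem confluence {y x1 x2 u : E} (hu : nm u = 1) (h1 : nm x1 < nm y) (h2 : nm x2 < nm y)
    (hx : x1 = x2 + ess * u * y) (hg : Good x1 y)
    (ih : ∀ x z : E, z ≠ 0 → Good x z → nm z < nm y → St x z) :
    1 - pot y x1 = chi u * (1 - pot y x2) := by
  obtain ⟨b, hb⟩ : ∃ b : E, b = ⟨u.re, u.re - u.im⟩ := ⟨_, rfl⟩
  obtain ⟨y1, hy1⟩ : ∃ y1, y1 = y - ess * b * x1 := ⟨_, rfl⟩
  obtain ⟨y2, hy2⟩ : ∃ y2, y2 = y + ess * b * x2 := ⟨_, rfl⟩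
  obtain ⟨x3, hx3⟩ : ∃ x3, x3 = -x1 - x2 := ⟨_, rfl⟩
  have hu' : u.re ^ 2 - u.re * u.im + u.im ^ 2 = 1 := hu
  -- the relation (s b) (s u) = 3
  have hsb : ess * b * (ess * u) = 3 := by
    rw [hb]
    ext
    · simp only [re_mul, im_mul, ess]
      show _ = (3 : ℤ)
      nlinarith
    · simp only [re_mul, im_mul, ess]
      show _ = (0 : ℤ)
      ring
  have e1 : y1 = y2 + ess * b * x3 := by rw [hy1, hy2, hx3]; ring
  have e2 : x3 = x1 + ess * u * y1 := by
    have h : x1 + ess * u * y1 = x1 + ess * u * y - (ess * b * (ess * u)) * x1 := by rw [hy1]; ring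
    rw [h, hsb, hx3, hx]
    ring
  have e3 : x2 = x3 + ess * u * y2 := by
    have h : x3 + ess * u * y2 = x3 + ess * u * y + (ess * b * (ess * u)) * x2 := by rw [hy2]; ring
    rw [h, hsb, hx3, hx]
    ring
  have e4 : y = y1 + ess * b * x1 := by rw [hy1]; ring
  have hx' : x2 = x1 - ess * u * y := by rw [hx]; ring
  have n1 : nm y1 = 2 * nm x1 + nm x2 - 2 * nm y := by
    rw [hy1, hx', hb]
    simp only [nm, re_sub', im_sub', re_mul, im_mul, ess]
    linear_combination (3 * ((x1.re ^ 2 - x1.re * x1.im + x1.im ^ 2) -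
      (y.re ^ 2 - y.re * y.im + y.im ^ 2))) * hu'
  have n2 : nm y2 = 2 * nm x2 + nm x1 - 2 * nm y := by
    rw [hy2, hx, hb]
    simp only [nm, re_add', im_add', re_mul, im_mul, ess]
    linear_combination (3 * ((x2.re ^ 2 - x2.re * x2.im + x2.im ^ 2) -
      (y.re ^ 2 - y.re * y.im + y.im ^ 2))) * hu'
  have n3 : nm x3 = 2 * nm x1 + 2 * nm x2 - 3 * nm y := by
    rw [hx3, hx]
    simp only [nm, re_sub', im_sub', re_add', im_add', re_mul, im_mul, ess, QuadraticAlgebra.re_neg,
      QuadraticAlgebra.im_neg]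
    linear_combination (-3 * (y.re ^ 2 - y.re * y.im + y.im ^ 2)) * hu'
  have g1 : Good y1 x1 := by
    have h := hg.symm.shift (-b)
    have e : y + ess * -b * x1 = y1 := by rw [hy1]; ring
    rwa [e] at h
  have g2 : Good x2 y := by
    have h := hg.shift (-u)
    have e : x1 + ess * -u * y = x2 := by rw [hx']; ring
    rwa [e] at h
  have g3 : Good y2 x2 := by
    have h := g2.symm.shift b
    rwa [← hy2] at h
  have g4 : Good x3 y1 := by
    have h := g1.symm.shift u
    rwa [← e2] at h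
  have g5 : Good x3 y2 := by
    have h := g3.symm.shift (-u)
    have e : x2 + ess * -u * y2 = x3 := by rw [e3]; ring
    rwa [e] at h
  have b1 : nm y1 < nm y := by linarith
  have b2 : nm y2 < nm y := by linarith
  have b3 : nm x3 < nm y := by linarith
  -- the chain
  have f1 : pot y x1 = chi b * pot y1 x1 := by
    have h := st_shift ih g1 h1 b
    rwa [← e4] at h
  have f2 : pot y1 x1 = 1 - pot x1 y1 := st_swap ih g1 b1 h1
  have f3 : pot x3 y1 = chi u * pot x1 y1 := by
    have h := st_shift ih g1.symm b1 u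
    rwa [← e2] at h
  have f4 : pot x3 y1 = 1 - pot y1 x3 := st_swap ih g4 b3 b1
  have f5 : pot y1 x3 = chi b * pot y2 x3 := by
    have h := st_shift ih g5.symm b3 b
    rwa [← e1] at h
  have f6 : pot y2 x3 = 1 - pot x3 y2 := st_swap ih g5.symm b2 b3
  have f7 : pot x2 y2 = chi u * pot x3 y2 := by
    have h := st_shift ih g5 b2 u
    rwa [← e3] at h
  have f8 : pot y2 x2 = 1 - pot x2 y2 := st_swap ih g3 b2 h2
  have f9 : pot y2 x2 = chi b * pot y x2 := by
    have h := st_shift ih g2.symm h2 b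
    rwa [← hy2] at h
  have hbu : chi b = chi (-u) := by
    refine chi_mod _ _ ?_
    rw [hb, QuadraticAlgebra.re_neg, QuadraticAlgebra.im_neg]
    exact ⟨u.re, by dsimp only; ring⟩
  have hvw : chi b * chi u = 1 := by rw [hbu]; exact chi_neg_mul u
  have hv3 : chi u ^ 3 = 1 := by
    have h3 := om_cube
    rcases chi_cases u with ⟨h, -⟩ | ⟨h, -⟩ | ⟨h, -⟩
    · rw [h, one_pow]
    · rw [h, h3]
    · rw [h, ← pow_mul, mul_comm, pow_mul, h3, one_pow]
  have hw : chi b = chi u ^ 2 := by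
    calc chi b = chi b * chi u ^ 3 := by rw [hv3, mul_one]
      _ = chi b * chi u * chi u ^ 2 := by ring
      _ = chi u ^ 2 := by rw [hvw, one_mul]
  have f3' : pot x1 y1 = chi u ^ 2 * pot x3 y1 := by
    rw [f3]
    linear_combination (-pot x1 y1) * hv3
  have f9' : pot y x2 = chi u * pot y2 x2 := by
    rw [f9, hw]
    linear_combination (-pot y x2) * hv3
  rw [f1, f2, f3', f4, f5, f6, f9', f8, f7, hw]
  linear_combination (chi u * (1 - chi u ^ 2 * (1 - pot x3 y2)) - 1) * hv3

theorem st_all (n : ℕ) : ∀ x y : E, y ≠ 0 → Good x y → nm y < n → St x y := by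
  induction n with
  | zero =>
    intro x y _ _ h
    exact absurd (nm_nonneg y) (by push_cast at h; omega)
  | succ n ih =>
    intro x y hy hg hn a ha
    obtain ⟨a', ha', h1⟩ := pot_eq hy hg
    by_cases he : a = a'
    · rw [he]
      exact h1
    · obtain ⟨u, hu⟩ : ∃ u, u = a' - a := ⟨_, rfl⟩
      have hu0 : u ≠ 0 := by
        rw [hu]
        exact sub_ne_zero.2 fun h => he h.symm
      obtain ⟨x1, hx1⟩ : ∃ x1, x1 = x - ess * a * y := ⟨_, rfl⟩
      obtain ⟨x2, hx2⟩ : ∃ x2, x2 = x - ess * a' * y := ⟨_, rfl⟩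
      rw [← hx1] at ha ⊢
      rw [← hx2] at ha' h1
      have hx : x1 = x2 + ess * u * y := by rw [hx1, hx2, hu]; ring
      have hpos := nm_pos hy
      have hN : nm u = 1 := by
        have h3 : nm (x1 - x2) = 3 * nm u * nm y := by
          have e : x1 - x2 = ess * u * y := by rw [hx]; ring
          rw [e, nm_mul, nm_mul, nm_ess]
        have h4 : nm (x1 - x2) ≤ 2 * nm x1 + 2 * nm x2 := by
          have h5 := nm_nonneg (x1 + x2)
          have h6 : nm (x1 - x2) + nm (x1 + x2) = 2 * nm x1 + 2 * nm x2 := by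
            simp only [nm, re_sub', im_sub', re_add', im_add']
            ring
          linarith
        have h7 := nm_pos hu0
        have h8 : 3 * nm u < 4 := by
          by_contra hcon
          rw [not_lt] at hcon
          nlinarith
        omega
      have hg1 : Good x1 y := by
        have h := hg.shift (-a)
        have e : x + ess * -a * y = x1 := by rw [hx1]; ring
        rwa [e] at h
      have h9 := confluence hN ha ha' hx hg1
        (fun x z hz hg' hlt => ih x z hz hg' (by push_cast at hn; omega))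
      rw [h9, h1, ← mul_assoc, ← chi_add, hu]
      congr 2
      ring

/-- (b) -/
theorem pot_swap {x y : E} (hg : Good x y) : pot x y = 1 - pot y x :=
  st_swap (n := max (nm x) (nm y) + 1)
    (fun x' y' hy' hg' hn => st_all ((nm y').toNat + 1) x' y' hy' hg' (by
      have := nm_nonneg y'
      push_cast
      omega)) hg (by have := le_max_left (nm x) (nm y); omega)
      (by have := le_max_right (nm x) (nm y); omega)

/-- (c) -/
theorem pot_shift {x y : E} (hg : Good x y) (b : E) :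
    pot (x + ess * b * y) y = chi b * pot x y :=
  st_shift (n := nm y + 1)
    (fun x' y' hy' hg' hn => st_all ((nm y').toNat + 1) x' y' hy' hg' (by
      have := nm_nonneg y'
      push_cast
      omega)) hg (by omega) b

end Pool.Agent.H10.EF
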