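import Mathlib

/-!
# The Euclidean potential over the integers

For pairs `(x, y)` of integers exactly one of which is even there is a function `pot2 x y` with
`pot2 x 0 = 0`, `pot2 x y = 1 - pot2 y x` and `pot2 (x + 2 a y) y = (-1) ^ a * pot2 x y`.
-/

set_option autoImplicit false

namespace Pool.Agent.H10.EF

/-- the sign `(-1) ^ a` -/
def chi2 (a : ℤ) : ℤ := if a % 2 = 0 then 1 else -1

theorem chi2_add (a b : ℤ) : chi2 (a + b) = chi2 a * chi2 b := by
  unfold chi2
  split_ifs <;> first | rfl | (exfalso; omega)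

theorem chi2_zero : chi2 0 = 1 := by
  unfold chi2
  rfl

theorem chi2_sq (a : ℤ) : chi2 a * chi2 a = 1 := by
  unfold chi2
  split_ifs <;> rfl

/-- exactly one coordinate is even -/
def Good2 (x y : ℤ) : Prop := ¬ (x % 2 = 0 ↔ y % 2 = 0)

theorem Good2.symm {x y : ℤ} (h : Good2 x y) : Good2 y x := fun h' => h h'.symm

theorem Good2.shift {x y : ℤ} (h : Good2 x y) (a : ℤ) : Good2 (x + 2 * a * y) y := by
  unfold Good2 at *
  have e : (x + 2 * a * y) % 2 = x % 2 := by
    rw [mul_assoc]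
    omega
  rw [e]
  exact h

theorem Good2.ne {x y : ℤ} (h : Good2 x y) : |x| ≠ |y| := by
  intro h'
  apply h
  rcases abs_eq_abs.1 h' with h1 | h1
  · rw [h1]
  · rw [h1]
    omega

theorem exists_quot2 {x y : ℤ} (hy : y ≠ 0) (hg : Good2 x y) : ∃ a, |x - 2 * a * y| < |y| := by
  have hpos : 0 < |y| := abs_pos.2 hy
  obtain ⟨b, hb⟩ : ∃ b, b = (x + |y|) / (2 * |y|) := ⟨_, rfl⟩
  have h1 := Int.emod_add_mul_ediv (x + |y|) (2 * |y|)
  have h2 := Int.emod_nonneg (x + |y|) (by omega : 2 * |y| ≠ 0)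
  have h3 := Int.emod_lt_of_pos (x + |y|) (by omega : 0 < 2 * |y|)
  rw [← hb] at h1
  have h4 : |x - 2 * b * (|y|)| ≤ |y| := by
    rw [abs_le]
    constructor <;> nlinarith
  have hle : ∃ a, |x - 2 * a * y| ≤ |y| := by
    rcases abs_choice y with h5 | h5
    · exact ⟨b, by rw [h5] at h4; rw [h5]; exact h4⟩
    · refine ⟨-b, ?_⟩
      have e : x - 2 * -b * y = x - 2 * b * (|y|) := by rw [h5]; ring
      rw [e]
      exact h4
  obtain ⟨a, ha⟩ := hle
  refine ⟨a, lt_of_le_of_ne ha ?_⟩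
  have h6 := hg.shift (-a)
  have e : x + 2 * -a * y = x - 2 * a * y := by ring
  rw [e] at h6
  exact h6.ne

private theorem natAbs_lt {a b : ℤ} (h : |a| < |b|) : a.natAbs < b.natAbs := by
  rw [Int.abs_eq_natAbs, Int.abs_eq_natAbs] at h
  exact_mod_cast h

/-- the Euclidean potential -/
noncomputable def pot2 (x y : ℤ) : ℤ := by
  classical
  exact if h : y ≠ 0 ∧ ∃ a, |x - 2 * a * y| < |y| then
      chi2 h.2.choose * (1 - pot2 y (x - 2 * h.2.choose * y)) else 0
termination_by y.natAbs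
decreasing_by
  exact natAbs_lt h.2.choose_spec

theorem pot2_zero (x : ℤ) : pot2 x 0 = 0 := by
  unfold pot2
  rw [dif_neg]
  rintro ⟨h, -⟩
  exact h rfl

theorem pot2_eq {x y : ℤ} (hy : y ≠ 0) (hg : Good2 x y) (a : ℤ) (ha : |x - 2 * a * y| < |y|) :
    pot2 x y = chi2 a * (1 - pot2 y (x - 2 * a * y)) := by
  have h : y ≠ 0 ∧ ∃ a, |x - 2 * a * y| < |y| := ⟨hy, exists_quot2 hy hg⟩
  have hu : h.2.choose = a := by
    have h1 := h.2.choose_spec
    by_contra hcon
    have h2 : |2 * (h.2.choose - a) * y| < 2 * |y| := by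
      have e : 2 * (h.2.choose - a) * y = (x - 2 * a * y) - (x - 2 * h.2.choose * y) := by ring
      rw [e]
      have h3 := abs_sub (x - 2 * a * y) (x - 2 * h.2.choose * y)
      linarith
    rw [abs_mul, abs_mul, abs_two] at h2
    have h4 : 1 ≤ |h.2.choose - a| := Int.one_le_abs (sub_ne_zero.2 hcon)
    have hpos : 0 < |y| := abs_pos.2 hy
    nlinarith
  conv_lhs => unfold pot2
  rw [dif_pos h, hu]

/-- (b) -/
theorem pot2_swap {x y : ℤ} (hg : Good2 x y) : pot2 x y = 1 - pot2 y x := by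
  rcases lt_or_gt_of_ne hg.ne with h | h
  · have hy : y ≠ 0 := by
      rintro rfl
      rw [abs_zero] at h
      exact absurd (abs_nonneg x) (not_le.2 h)
    have h1 := pot2_eq hy hg 0 (by simpa using h)
    simpa [chi2_zero] using h1
  · have hx : x ≠ 0 := by
      rintro rfl
      rw [abs_zero] at h
      exact absurd (abs_nonneg y) (not_le.2 h)
    have h1 := pot2_eq hx hg.symm 0 (by simpa using h)
    simp only [chi2_zero, mul_zero, zero_mul, sub_zero, one_mul] at h1
    rw [h1]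
    ring

/-- (c) -/
theorem pot2_shift {x y : ℤ} (hg : Good2 x y) (b : ℤ) :
    pot2 (x + 2 * b * y) y = chi2 b * pot2 x y := by
  by_cases hy0 : y = 0
  · subst hy0
    rw [pot2_zero, pot2_zero, mul_zero]
  · obtain ⟨a, ha⟩ := exists_quot2 hy0 hg
    have e : x + 2 * b * y - 2 * (a + b) * y = x - 2 * a * y := by ring
    have h2 := pot2_eq hy0 (hg.shift b) (a + b) (by rw [e]; exact ha)
    rw [h2, pot2_eq hy0 hg a ha, e, chi2_add]
    ring

end Pool.Agent.H10.EF
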